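import Pool.Agent.Helper880_DB.Fin

/-!
# De Rham-Betti classes on all products of powers of all members of families with few central periods

Grothendieck's period conjecture for algebraic cycles says that all de Rham-Betti classes are algebraic. Let `F` be the
Fermat polynomial of degree `δ ≥ 3` in `m + 2` variables and `G` another form of degree `δ` over `ℚ` such that `F, G` span a
Lefschetz pencil. The theorem implies for the hypersurfaces

  `X_t : t F + G = 0`

(but not for plane cubics and cubic surfaces): for each `D` there is `T` such that for **all** integers `t ≥ T`, **all** powers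
`X_t^k` (`k < n` if `m` is even, where `n` is the primitive middle Betti number) and **all** codimensions **all** de Rham-Betti
classes with coordinates in a number field of degree at most `D` are algebraic. The same is true for the products of powers
of `X_(t_1), …, X_(t_N)` for `t_j` in windows, and for their products with every variety `Z` such that the periods of `Z` are
algebraic over the field of the periods of the Fermat hypersurface and the conjecture is true for `Z` (for classes over these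
number fields). This is an example of the following theorem on arbitrary families over `ℚ` such that the fibre over `0` has
few periods; there are no exceptions among the integers `t ≥ T`.

**Setting.** Let `X_x` be a family over `ℚ` with parameter `x`, and `V_x` a part of its cohomology. The period matrix near
`x = 0` with respect to a de Rham basis and to a Betti basis is `P(x) = C exp (M log x) Z(x)`, where `Z` is an `n × n` matrix of
G-functions over `ℚ`, `M` is the logarithm of the local monodromy (`M = 0` if the fibre over `0` is smooth) and `C` is the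
matrix of the central periods. Let `V_0` be any other motive over `ℚ`, with the period matrix `C₀`. Up to one common factor
the entries of `C` and `C₀` are algebraic over a field generated by `s` numbers. We put `r = s` if `M = 0` and `r = s + 1`
otherwise. Let `𝔤` be a Lie algebra of infinitesimal symmetries `X` of `Z`: the relations of `Z` over `ℂ[x]` hold to first
order for `(1 + ε X) Z`. For example this is the Lie algebra of the differential Galois group (if `M = 0`), and `C 𝔤 C⁻¹` is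
the Lie algebra of the Zariski closure of the monodromy group, acting on the Betti cohomology. Assume that `𝔤` is
semisimple (or has only quotients with trivial centre) and that all proper subalgebras of `𝔤` have codimension larger than
`r`. This is true for the Lie algebra of the isometries of a nondegenerate form `B` of rank `n` if `B` is alternating and
`r ≤ n - 2`, or `B` is symmetric and `4 r < n`, `n ≠ 2`.

A rational tensor `f` in `V_0^(⊗ d₀) ⊗ V_(t_(τ 1)) ⊗ … ⊗ V_(t_(τ d))` is a de Rham-Betti class over `K` with the factor `c` if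
the coordinates of `c f` with respect to the de Rham basis are in `K`. For a class of codimension `k` this is the
definition of the problem with `c = (2 π i)^k`; here `c` may be any complex number which is not zero.

**Theorem.** Let `D`, `N`, `C₀`, `C` be given. There are `G` (which depends only on the family) and `E` such that for **all**
`t_1, …, t_N` which are distinct, congruent modulo `G`, with `(t_i - t_j + 2)^E ≤ t_j` (for `N = 1` these are all `t ≥ 2^E`),
for **all** number fields `K` with `[K : ℚ] ≤ D`, **all** `d₀`, `d`, `τ`, `c` and **all** de Rham-Betti classes `f` over `K` with the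
factor `c` in `V_0^(⊗ d₀) ⊗ V_(t_(τ 1)) ⊗ … ⊗ V_(t_(τ d))`:

1. `f` is invariant under the Lie algebras `C 𝔤 C⁻¹` of the monodromy groups of the `V_(t_j)`, for each `j` separately.
2. Let `J` be a nondegenerate rational form on `V_t`, alternating or symmetric, such that `C 𝔤 C⁻¹` contains the Lie algebra
   of the isometries of `J`. If `J` is symmetric let each `t_j` occur less than `n` times among `t_(τ 1), …, t_(τ d)`. Then `f` is
   a rational combination of products of rational tensors in `V_0^(⊗ d₀)` and of the classes `J⁻¹` in `V_(t_j) ⊗ V_(t_j)`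
   (which are algebraic: they are given by the diagonals of `X_(t_j) × X_(t_j)`).
3. If also `P_j Q_j P_jᵀ = λ J⁻¹` with matrices `Q_j` over `K` (this is the comparison of the polarisations, with `λ` a
   power of `2 π i`), then the tensors in `V_0^(⊗ d₀)` can be chosen as de Rham-Betti classes over `K`, with the factor
   `c / λ^m` for products of `m` classes `J⁻¹`.

So the period conjecture for algebraic cycles for `Z × ∏ X_(t_j)^(k_j)` is equivalent to the conjecture for `Z`, as far as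
the classes over number fields of degree at most `D` are concerned, and in this sense it is true for `∏ X_(t_j)^(k_j)`.
For the classes which are in `F^k` (the Hodge classes) this is true for all number fields, by our theorem on
`MP_e12fcd_ag` (AllMembersOfPencils), if there are a little less periods.

Proof (`Pool/Agent/Helper880_DB`). The block matrices `x` such that the tensor power of `x` maps the de Rham tensor
`κ = c P^(-1) f` to a multiple of `f` form a subtorsor over `K`. By our theorem on `MP_caab05_ag`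
(AllFibresFewCentralPeriods) it is stable under `1 × ∏ exp (C 𝔤 C⁻¹)`, so that `f` is multiplied by scalars by these
groups and killed by their Lie algebras, as they have no abelian quotients. Then the first fundamental theorem of
invariant theory (starting files) gives 2. For 3 one chooses among the products of copies of `J⁻¹` a maximal linearly
independent set; its image on the de Rham side is, up to `λ^m`, rational over `K` and linearly independent over `ℂ`.
-/

set_option autoImplicit false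

open PowerSeries Filter
open scoped Matrix

namespace Pool.Agent.Results.MP_bf54cf_ag.AllPowersOfAllMembers

/-- an integer polynomial as a power series with rational coefficients -/
noncomputable def toQ (P : Polynomial ℤ) : PowerSeries ℚ := ((P.map (Int.castRingHom ℚ) : Polynomial ℚ) : PowerSeries ℚ)

/-- the power series `P(u^e)` -/
noncomputable def atPow (e : ℕ) (P : Polynomial ℤ) : PowerSeries ℂ :=
  ((Polynomial.expand ℂ e (P.map (Int.castRingHom ℂ)) : Polynomial ℂ) : PowerSeries ℂ)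

/-- the matrices `G_s` over `ℤ[x]` with `T^s y^(s) = G_s y` for all solutions `y` of `T y' = A y` -/
noncomputable def iter {r : ℕ} (T : Polynomial ℤ) (A : Fin r → Fin r → Polynomial ℤ) : ℕ → Fin r → Fin r → Polynomial ℤ
  | 0 => fun i j => if i = j then 1 else 0
  | s + 1 => fun i j => T * Polynomial.derivative (iter T A s i j) + ∑ l, iter T A s i l * A l j -
      (s : Polynomial ℤ) * (Polynomial.derivative T * iter T A s i j)

/-- The system `T y' = A y` has a fundamental matrix of solutions of the form `u^(-M) ∑_n Φ_n(u) (log u)^n` with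
`u^e = x` and convergent power series `Φ_n`: the point `0` is regular or a regular singularity with rational
exponents. -/
def QuasiUnipotent {r : ℕ} (T : Polynomial ℤ) (A : Fin r → Fin r → Polynomial ℤ) : Prop :=
  ∃ (e M : ℕ) (K : ℝ) (Φ : Matrix (Fin r) (Fin r) (Polynomial (PowerSeries ℂ))), 1 ≤ e ∧ Φ.det ≠ 0 ∧
    (∀ i j n m, ‖coeff m ((Φ i j).coeff n)‖ ≤ K ^ (m + 1)) ∧
    ∀ i j n, atPow e T * (X * PowerSeries.derivative ℂ ((Φ i j).coeff n) +
        ((n : PowerSeries ℂ) + 1) * (Φ i j).coeff (n + 1) - (M : PowerSeries ℂ) * (Φ i j).coeff n) =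
      (e : PowerSeries ℂ) * X ^ e * ∑ l, atPow e (A i l) * (Φ l j).coeff n

/-- `h_1, ..., h_r` are G-functions with rational coefficients which solve the differential system `T y' = A y`, with
the conditions of Siegel and Galochkin, and `0` is a regular point or a regular singularity with rational exponents of
the system. -/
structure GFamily {r : ℕ} (T : Polynomial ℤ) (A : Fin r → Fin r → Polynomial ℤ) (h : Fin r → PowerSeries ℚ) : Prop where
  /-- the denominator is not zero -/
  T_ne : T ≠ 0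
  /-- the differential equations -/
  ode : ∀ i, toQ T * PowerSeries.derivative ℚ (h i) = ∑ j, toQ (A i j) * h j
  /-- the coefficients have geometric growth -/
  size : ∃ C : ℝ, ∀ i m, |((coeff m (h i) : ℚ) : ℝ)| ≤ C ^ (m + 1)
  /-- the common denominators of the coefficients have geometric growth -/
  den : ∃ C : ℝ, ∀ m : ℕ, ∃ d : ℕ, 0 < d ∧ (d : ℝ) ≤ C ^ (m + 1) ∧ ∀ i, ∀ j ≤ m, ∃ a : ℤ, (d : ℚ) * coeff j (h i) = a
  /-- Galochkin's condition: the common denominators of the matrices `G_s / s!` have geometric growth -/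
  galochkin : ∃ C : ℝ, ∀ m : ℕ, ∃ d : ℕ, 0 < d ∧ (d : ℝ) ≤ C ^ (m + 1) ∧ ∀ s ≤ m, ∀ i j,
    ∃ H : Polynomial ℤ, (d : Polynomial ℤ) * iter T A s i j = (s.factorial : Polynomial ℤ) * H
  /-- the local exponents at `0` are rational and the singularity is regular -/
  regular : QuasiUnipotent T A

section family
variable {n : ℕ}

/-- the entries of a matrix -/
def entries (Z : Matrix (Fin n) (Fin n) (PowerSeries ℚ)) : Fin (n * n) → PowerSeries ℚ := fun a =>
  Z (finProdFinEquiv.symm a).1 (finProdFinEquiv.symm a).2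

/-- rational matrices as complex matrices -/
def toC (M : Matrix (Fin n) (Fin n) ℚ) : Matrix (Fin n) (Fin n) ℂ := M.map fun x : ℚ => (x : ℂ)

/-- the matrix `Z(1 / t)` -/
noncomputable def value (Z : Matrix (Fin n) (Fin n) (PowerSeries ℚ)) (t : ℕ) : Matrix (Fin n) (Fin n) ℂ :=
  Matrix.of fun i j => ((∑' k : ℕ, ((coeff k (Z i j) : ℚ) : ℝ) * (1 / (t : ℝ)) ^ k : ℝ) : ℂ)

/-- the period matrix `C exp (M log x) Z(x)` at `x = 1 / t` -/
noncomputable def period (C : Matrix (Fin n) (Fin n) ℂ) (M : Matrix (Fin n) (Fin n) ℚ)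
    (Z : Matrix (Fin n) (Fin n) (PowerSeries ℚ)) (t : ℕ) : Matrix (Fin n) (Fin n) ℂ :=
  C * (NormedSpace.exp ((-((Real.log (t : ℝ) : ℝ) : ℂ)) • toC M) * value Z t)

/-- the matrix of power series with complex coefficients -/
noncomputable def overC (Z : Matrix (Fin n) (Fin n) (PowerSeries ℚ)) : Matrix (Fin n) (Fin n) (PowerSeries ℂ) :=
  Z.map (PowerSeries.map (algebraMap ℚ ℂ))

/-- `X` is an infinitesimal symmetry of `Z`: for all polynomial relations `R(x, Z(x)) = 0` over `ℂ[x]` the derivative of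
`R(x, (1 + ε X) Z(x))` at `ε = 0` is zero. -/
def Symmetry (Z : Matrix (Fin n) (Fin n) (PowerSeries ℚ)) (X : Matrix (Fin n) (Fin n) ℂ) : Prop :=
  ∀ R : MvPolynomial (Fin n × Fin n) (Polynomial ℂ), MvPolynomial.aeval (fun b => overC Z b.1 b.2) R = 0 →
    ∑ b, MvPolynomial.aeval (fun b => overC Z b.1 b.2) (MvPolynomial.pderiv b R) *
      (X.map (PowerSeries.C (R := ℂ)) * overC Z) b.1 b.2 = 0

/-- `𝔤` is closed under commutators -/
def IsLieAlg (𝔤 : Submodule ℂ (Matrix (Fin n) (Fin n) ℂ)) : Prop := ∀ x ∈ 𝔤, ∀ y ∈ 𝔤, x * y - y * x ∈ 𝔤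

/-- all quotients `𝔤 / I` have trivial centre; semisimple Lie algebras have this property -/
def CentreFree (𝔤 : Submodule ℂ (Matrix (Fin n) (Fin n) ℂ)) : Prop :=
  ∀ I : Submodule ℂ (Matrix (Fin n) (Fin n) ℂ), I ≤ 𝔤 → (∀ x ∈ 𝔤, ∀ y ∈ I, x * y - y * x ∈ I) →
    ∀ x ∈ 𝔤, (∀ y ∈ 𝔤, x * y - y * x ∈ I) → x ∈ I

/-- all proper subalgebras of `𝔤` have codimension larger than `r` -/
def NoSmall (r : ℕ) (𝔤 : Submodule ℂ (Matrix (Fin n) (Fin n) ℂ)) : Prop :=
  ∀ 𝔥 : Submodule ℂ (Matrix (Fin n) (Fin n) ℂ), 𝔥 ≤ 𝔤 → IsLieAlg 𝔥 →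
    Module.finrank ℂ 𝔤 ≤ Module.finrank ℂ 𝔥 + r → 𝔤 ≤ 𝔥

/-- nondegenerate alternating forms -/
def Symplectic (B : Matrix (Fin n) (Fin n) ℂ) : Prop := IsUnit B ∧ Bᵀ = -B

/-- The form is zero and `2 r + 2 < n`, or it is nondegenerate and alternating and `r ≤ n - 2`, or nondegenerate and
symmetric and `4 r < n`, `n ≠ 2`. -/
def Small (r : ℕ) (B : Matrix (Fin n) (Fin n) ℂ) : Prop :=
  (B = 0 ∧ 2 * r + 2 < n) ∨ (Symplectic B ∧ r + 2 ≤ n) ∨ (IsUnit B ∧ Bᵀ = B ∧ n ≠ 2 ∧ 4 * r < n)

/-- `X` is in the Lie algebra of the group of all matrices of determinant `1` which respect `B` -/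
def IsInfinitesimal (B X : Matrix (Fin n) (Fin n) ℂ) : Prop := X.trace = 0 ∧ X * B + B * Xᵀ = 0

/-- `𝔤` is a Lie algebra, all its quotients have trivial centre, and all proper subalgebras have codimension larger than
`r`; or it is the Lie algebra of the special isometry group of a form for which `Small r B` holds (this case is in fact
contained in the first one, as we show). -/
def Admissible (r : ℕ) (𝔤 : Submodule ℂ (Matrix (Fin n) (Fin n) ℂ)) : Prop :=
  (IsLieAlg 𝔤 ∧ CentreFree 𝔤 ∧ NoSmall r 𝔤) ∨ ∃ B, Small r B ∧ ∀ X, X ∈ 𝔤 ↔ IsInfinitesimal B X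

/-- up to a common factor the entries of `C₀` and `C` are algebraic over a field generated by `s` numbers -/
def FewPeriods {r : ℕ} (s : ℕ) (C₀ : Matrix (Fin r) (Fin r) ℂ) (C : Matrix (Fin n) (Fin n) ℂ) : Prop :=
  ∃ (b : Fin s → ℂ) (κ : ℂ), κ ≠ 0 ∧ (∀ i j, IsAlgebraic (IntermediateField.adjoin ℚ (Set.range b)) (κ * C₀ i j)) ∧
    ∀ i j, IsAlgebraic (IntermediateField.adjoin ℚ (Set.range b)) (κ * C i j)

end family

/-- the numbers `t_j` are distinct and congruent modulo `G`, and `(t_i - t_j + 2)^E ≤ t_j` -/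
def InWindow (G E : ℕ) {N : ℕ} (t : Fin N → ℕ) : Prop :=
  Function.Injective t ∧ (∀ i j, t i ≡ t j [MOD G]) ∧ ∀ i j, (t i - t j + 2) ^ E ≤ t j

section
variable {n N r₀ : ℕ}

/-- `C X C⁻¹` -/
noncomputable def conj (C X : Matrix (Fin n) (Fin n) ℂ) : Matrix (Fin n) (Fin n) ℂ := C * X * C⁻¹

/-- The rational tensor `g` in `V_0^(⊗ d₀)` is a de Rham-Betti class over `K` with the factor `c`: the coordinates of `c g` in
the de Rham basis are in `K`. The period matrix is `C₀` (its columns are the elements of the de Rham basis). -/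
def IsDRB₀ (K : Subfield ℂ) (c : ℂ) {d₀ : ℕ} (C₀ : Matrix (Fin r₀) (Fin r₀) ℂ) (g : (Fin d₀ → Fin r₀) → ℚ) : Prop :=
  ∀ x : Fin d₀ → Fin r₀, c * (∑ y : Fin d₀ → Fin r₀, (∏ k, C₀⁻¹ (x k) (y k)) * (g y : ℂ)) ∈ K

/-- The rational tensor `f` in `V_0^(⊗ d₀) ⊗ V_(τ 1) ⊗ … ⊗ V_(τ d)` is a de Rham-Betti class over `K` with the factor `c`: the
coordinates of `c f` in the de Rham basis are in `K`. The period matrices are `C₀` and `P_j`. -/
def IsDRB (K : Subfield ℂ) (c : ℂ) {d₀ d : ℕ} (C₀ : Matrix (Fin r₀) (Fin r₀) ℂ) (P : Fin N → Matrix (Fin n) (Fin n) ℂ)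
    (τ : Fin d → Fin N) (f : (Fin d₀ → Fin r₀) → (Fin d → Fin n) → ℚ) : Prop :=
  ∀ (x : Fin d₀ → Fin r₀) (y : Fin d → Fin n), c * (∑ x' : Fin d₀ → Fin r₀, ∑ y' : Fin d → Fin n,
    (∏ k, C₀⁻¹ (x k) (x' k)) * (∏ l, (P (τ l))⁻¹ (y l) (y' l)) * (f x' y' : ℂ)) ∈ K

/-- the tensor `f` is killed by the infinitesimal automorphism `Y` of `V_j` -/
def KilledBy {d₀ d : ℕ} (τ : Fin d → Fin N) (f : (Fin d₀ → Fin r₀) → (Fin d → Fin n) → ℚ) (j : Fin N)
    (Y : Matrix (Fin n) (Fin n) ℂ) : Prop :=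
  ∀ (x : Fin d₀ → Fin r₀) (y : Fin d → Fin n),
    ∑ l, (if τ l = j then ∑ a, Y (y l) a * (f x (Function.update y l a) : ℂ) else 0) = 0

/-- The products of a tensor `g` in `V_0^(⊗ d₀)` with the property `S m g` and `m` classes `J⁻¹`, for the pairs
`(e (l, 0), e (l, 1))` of factors. -/
def products {d₀ d : ℕ} (S : ℕ → ((Fin d₀ → Fin r₀) → ℚ) → Prop) (J : Matrix (Fin n) (Fin n) ℚ) (τ : Fin d → Fin N) :
    Set ((Fin d₀ → Fin r₀) → (Fin d → Fin n) → ℚ) :=
  {f | ∃ (m : ℕ) (e : Fin m × Fin 2 ≃ Fin d) (g : (Fin d₀ → Fin r₀) → ℚ), (∀ l, τ (e (l, 0)) = τ (e (l, 1))) ∧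
    S m g ∧ f = fun x y => g x * ∏ l, J⁻¹ (y (e (l, 0))) (y (e (l, 1)))}

/-- The conclusion for one tuple of parameters; `P j` is the period matrix of the fibre. -/
def Good (D : ℕ) (C₀ : Matrix (Fin r₀) (Fin r₀) ℂ) (C : Matrix (Fin n) (Fin n) ℂ)
    (𝔤 : Submodule ℂ (Matrix (Fin n) (Fin n) ℂ)) (P : Fin N → Matrix (Fin n) (Fin n) ℂ) : Prop :=
  ∀ K : Subfield ℂ, FiniteDimensional ℚ K → Module.finrank ℚ K ≤ D →
  ∀ (d₀ d : ℕ) (τ : Fin d → Fin N) (f : (Fin d₀ → Fin r₀) → (Fin d → Fin n) → ℚ) (c : ℂ), c ≠ 0 → IsDRB K c C₀ P τ f →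
  -- 1: invariance
  (∀ j, ∀ X ∈ 𝔤, KilledBy τ f j (conj C X)) ∧
  ∀ J : Matrix (Fin n) (Fin n) ℚ, IsUnit J → (Jᵀ = -J ∨ (Jᵀ = J ∧ ∀ j, Fintype.card {l // τ l = j} < n)) →
    (∀ Y, Yᵀ * toC J + toC J * Y = 0 → ∃ X ∈ 𝔤, Y = conj C X) →
    -- 2: products
    f ∈ Submodule.span ℚ (products (fun _ _ => True) J τ) ∧
    -- 3: products of de Rham-Betti classes
    ∀ (Q : Fin N → Matrix (Fin n) (Fin n) ℂ) (lam : ℂ), (∀ j a b, Q j a b ∈ K) → lam ≠ 0 →
      (∀ j, P j * Q j * (P j)ᵀ = lam • toC J⁻¹) →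
      f ∈ Submodule.span ℚ (products (fun m g => IsDRB₀ K (c / lam ^ m) C₀ g) J τ)

end

theorem iter_eq {r : ℕ} (T : Polynomial ℤ) (A : Fin r → Fin r → Polynomial ℤ) (s : ℕ) :
    iter T A s = Pool.Agent.Y120.GH.itm T A s := by
  induction s with
  | zero => rfl
  | succ s ih =>
    funext i j
    rw [iter, Pool.Agent.Y120.GH.itm, ih]

theorem qu_eq {r : ℕ} {T : Polynomial ℤ} {A : Fin r → Fin r → Polynomial ℤ} (h : QuasiUnipotent T A) :
    Pool.Agent.Y120.GH.QU0 T A := by
  obtain ⟨e, M, K, Φ, he, hdet, hc, heq⟩ := h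
  have he0 : e ≠ 0 := by omega
  refine ⟨e, he0, M, K, Φ, hc, fun i j n => ?_, hdet⟩
  have h1 := heq i j n
  simp only [atPow] at h1
  rw [Pool.Agent.Y120.GH.expand_poly he0]
  simp only [Pool.Agent.Y120.GH.expand_poly he0]
  exact h1

theorem gal_eq {r : ℕ} {T : Polynomial ℤ} {A : Fin r → Fin r → Polynomial ℤ} {h : Fin r → PowerSeries ℚ}
    (hG : GFamily T A h) : ∃ C : ℝ, ∀ m, ∃ d : ℕ, 0 < d ∧ (d : ℝ) ≤ C ^ (m + 1) ∧ ∀ s ≤ m, ∀ i j, ∃ H : Polynomial ℤ,
      (d : Polynomial ℤ) * Pool.Agent.Y120.GH.itm T A s i j = (s.factorial : Polynomial ℤ) * H := by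
  obtain ⟨C, hC⟩ := hG.galochkin
  refine ⟨C, fun m => ?_⟩
  obtain ⟨d, h1, h2, h3⟩ := hC m
  refine ⟨d, h1, h2, fun s hs i' j' => ?_⟩
  rw [← iter_eq]
  exact h3 s hs i' j'

theorem map_eq {n : ℕ} (M : Matrix (Fin n) (Fin n) ℚ) : toC M = Pool.Agent.Y119.HY.cm M := by
  ext i j
  rw [Pool.Agent.Y119.HY.cm_apply]
  rfl

theorem sym_inf {n : ℕ} {Z : Matrix (Fin n) (Fin n) (PowerSeries ℚ)} {X : Matrix (Fin n) (Fin n) ℂ} (h : Symmetry Z X) :
    Pool.Agent.Helper880_R3.Inf Z X := by
  intro R hR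
  refine Eq.trans ?_ (h R hR)
  unfold Pool.Agent.Helper880_R3.DX
  rw [map_sum]
  refine Finset.sum_congr rfl fun b _ => ?_
  rw [map_mul, map_sum, Matrix.mul_apply]
  refine congrArg₂ (· * ·) rfl (Finset.sum_congr rfl fun l _ => ?_)
  rw [map_mul, MvPolynomial.aeval_C, MvPolynomial.aeval_X, Matrix.map_apply, Matrix.map_apply]
  have h1 : algebraMap (Polynomial ℂ) (PowerSeries ℂ) (Polynomial.C (X b.1 l)) = PowerSeries.C (X b.1 l) :=
    Polynomial.coe_C _
  rw [h1]
  rfl

theorem small_cod {n r : ℕ} (hn : 0 < n) {B : Matrix (Fin n) (Fin n) ℂ} (h : Small r B) :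
    CentreFree (Pool.Agent.Helper880_R3.lieB B) ∧ NoSmall r (Pool.Agent.Helper880_R3.lieB B) := by
  rcases h with ⟨rfl, h⟩ | ⟨⟨h1, h2⟩, h3⟩ | ⟨h1, h2, h3, h4⟩
  · exact ⟨Pool.Agent.Helper880_R3.cf_sl hn, Pool.Agent.Helper880_R3.cod_sl h⟩
  · have hB := (Matrix.isUnit_iff_isUnit_det _).1 h1
    refine ⟨Pool.Agent.Helper880_R3.cf_form (ε := -1) hB (by ring) (by rw [h2, neg_one_smul]) ?_,
      Pool.Agent.Helper880_R3.cod_sp hB h2 (by omega) (by omega)⟩
    have h5 : (8 : ℂ) - 4 * -1 * n = ((8 + 4 * n : ℕ) : ℂ) := by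
      push_cast
      ring
    rw [h5]
    exact_mod_cast (by omega : 8 + 4 * n ≠ 0)
  · have hB := (Matrix.isUnit_iff_isUnit_det _).1 h1
    refine ⟨Pool.Agent.Helper880_R3.cf_form (ε := 1) hB (by ring) (by rw [h2, one_smul]) ?_,
      Pool.Agent.Helper880_R3.cod_so hB h2 h4⟩
    intro h5
    have h6 : (n : ℂ) = ((2 : ℕ) : ℂ) := by
      push_cast
      linear_combination (-1 / 4 : ℂ) * h5
    exact h3 (by exact_mod_cast h6)

theorem adm {n r : ℕ} (hn : 0 < n) {𝔤 : Submodule ℂ (Matrix (Fin n) (Fin n) ℂ)} (h : Admissible r 𝔤) :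
    IsLieAlg 𝔤 ∧ CentreFree 𝔤 ∧ NoSmall r 𝔤 := by
  rcases h with h | ⟨B, hB, h⟩
  · exact h
  · have h1 : 𝔤 = Pool.Agent.Helper880_R3.lieB B := Submodule.ext h
    rw [h1]
    exact ⟨Pool.Agent.Helper880_R3.lieB_lie B, small_cod hn hB⟩

/-- **The theorem.** -/
theorem result (n : ℕ) (hn : 0 < n) (T : Polynomial ℤ) (A : Fin (n * n) → Fin (n * n) → Polynomial ℤ)
    (Z : Matrix (Fin n) (Fin n) (PowerSeries ℚ)) (hG : GFamily T A (entries Z)) (M : Matrix (Fin n) (Fin n) ℚ)
    (hM : M ^ n = 0) (𝔤 : Submodule ℂ (Matrix (Fin n) (Fin n) ℂ)) (r : ℕ) (h𝔤 : Admissible r 𝔤)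
    (hI : ∀ X ∈ 𝔤, Symmetry Z X) (hM𝔤 : ∀ X ∈ 𝔤, toC M * X - X * toC M ∈ 𝔤) :
    ∃ G : ℕ, 1 ≤ G ∧ ∀ (N D r₀ s : ℕ) (C₀ : Matrix (Fin r₀) (Fin r₀) ℂ) (C : Matrix (Fin n) (Fin n) ℂ), 0 < N →
      FewPeriods s C₀ C → s + (if M = 0 then 0 else 1) ≤ r → ∃ E : ℕ, ∀ t : Fin N → ℕ, InWindow G E t →
      IsUnit C₀ → (∀ j, IsUnit (period C M Z (t j))) → Good D C₀ C 𝔤 fun j => period C M Z (t j) := by
  obtain ⟨hL, hq, hc⟩ := adm hn h𝔤
  obtain ⟨q', C', hG'⟩ := Pool.Agent.Y120.GH.gsys_of hG.ode hG.size hG.den (gal_eq hG)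
  rw [map_eq] at hM𝔤
  obtain ⟨G, hG1, h⟩ := Pool.Agent.Helper880_R3.main hn hG.T_ne hG.ode hG' (qu_eq hG.regular) hL hq hc
    (fun X hX => sym_inf (hI X hX)) hM hM𝔤
  refine ⟨G, hG1, fun N D r₀ s C₀ C hN hfew hs => ?_⟩
  obtain ⟨E, hE⟩ := h N D r₀ s C₀ C hN hfew hs
  refine ⟨E, fun t ht hu0 hu1 K hK hKD d₀ d τ f c hc0 hf => ?_⟩
  have hper : (fun j => period C M Z (t j)) = fun j => C * (NormedSpace.exp ((-((Real.log (t j : ℝ) : ℝ) : ℂ)) •
      Pool.Agent.Y119.HY.cm M) * Pool.Agent.Y118.HV.Hv Z (t j)) := by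
    funext j
    unfold period
    rw [map_eq]
    rfl
  have hC : IsUnit C.det := by
    have h2 := (Matrix.isUnit_iff_isUnit_det _).1 (hu1 ⟨0, hN⟩)
    unfold period at h2
    rw [Matrix.det_mul] at h2
    exact isUnit_of_mul_isUnit_left h2
  have hu : IsUnit (Pool.Agent.Helper880_R3.Tot C₀ fun j => period C M Z (t j)) :=
    Pool.Agent.Helper880_DB.Tot_isUnit hu0 hu1
  have hst : ∀ S : Set (Matrix (Pool.Agent.Helper880_R3.Ix r₀ n N) (Pool.Agent.Helper880_R3.Ix r₀ n N) ℂ),
      Pool.Agent.Y123.ST.SubT K S → Pool.Agent.Helper880_R3.Tot C₀ (fun j => period C M Z (t j)) ∈ S →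
      ∀ Y : Fin N → Matrix (Fin n) (Fin n) ℂ, (∀ j, Y j ∈ 𝔤) → ∀ x ∈ S,
        Pool.Agent.Helper880_R3.Zm (fun j => NormedSpace.exp (C * Y j * C⁻¹)) * x ∈ S := by
    intro S hS hmem
    rw [hper] at hmem
    exact hE t ht.1 ht.2.1 ht.2.2 K hK hKD S (Pool.Agent.Y123.ST.subT_iff.1 hS) hmem
  have hkill := Pool.Agent.Helper880_DB.killed (τ := τ) (f := f) hC hu hL hq hst hc0 hf
  refine ⟨?_, ?_⟩
  · intro j X hX x y
    have h1 := congrFun (congrFun (hkill j X hX) x) y
    rw [Pool.Agent.Helper880_HC.one_sum] at h1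
    exact h1
  · intro J hJu hJt hJg
    have hdet : IsUnit J.det := (Matrix.isUnit_iff_isUnit_det _).1 hJu
    have hk : ∀ j, ∀ X ∈ Pool.Agent.Helper880_LF.spS (Pool.Agent.Helper880_HC.mC J),
        Pool.Agent.Helper880_HC.one τ (Pool.Agent.Helper880_HC.tC f) j X = 0 := by
      intro j Y hY
      obtain ⟨X, hX, rfl⟩ := hJg Y hY
      exact hkill j X hX
    obtain ⟨ε, hε, hJε, hcard⟩ : ∃ ε : ℤ, (ε = 1 ∨ ε = -1) ∧ Jᵀ = (ε : ℚ) • J ∧
        (ε = 1 → ∀ j, Fintype.card {l // τ l = j} < n) := by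
      rcases hJt with h1 | ⟨h1, h2⟩
      · refine ⟨-1, Or.inr rfl, ?_, fun h => absurd h (by norm_num)⟩
        rw [h1, Int.cast_neg, Int.cast_one, neg_one_smul]
      · refine ⟨1, Or.inl rfl, ?_, fun _ => h2⟩
        rw [h1, Int.cast_one, one_smul]
    refine ⟨?_, fun Q lam hQ hlam hPQ => ?_⟩
    · exact Pool.Agent.Helper880_DB.all_span hε hJε hdet hk hcard
    · exact Pool.Agent.Helper880_DB.drb_span hε hJε hdet hk hcard
        (fun j => (Matrix.isUnit_iff_isUnit_det _).1 (hu1 j)) hQ hlam hPQ hf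

end Pool.Agent.Results.MP_bf54cf_ag.AllPowersOfAllMembers
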