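import Pool.Agent.H621.CY.Cyc4

set_option autoImplicit false

/-!
# The period conjecture for cycles on `X × A`, `X` any variety, `A` a product of elliptic curves

Let `X` be **any** smooth projective variety over `ℚ̄`, with Betti numbers `b_j`. There are at most
`∑_j ⌊b_j / 2⌋` isogeny classes of elliptic curves over `ℚ̄` (the exceptional classes) such that the
following holds for all `s ≥ 1` and all products `A` of elliptic curves, **with or without complex
multiplication**, isogenous or not, none of which is exceptional, and also for all abelian varieties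
`A` which are factors of such products up to isogeny:

`GPC^k(X^s × A)` for all `k`  ⟺  `GPC^k(X^s)` for all `k`.

More precisely, every class in `H^{2k}_Gr(X^s × A, ℚ(k))` is a sum of products `ξ · η`, where
`ξ ∈ H^{2(k-p)}_Gr(X^s, ℚ(k-p))` and `η ∈ H^{2p}(A)` is a product of `p` divisor classes. Nothing is
assumed about the periods of `X`.

For example (unconditionally):

* `X = C` a curve of genus `g`: `GPC^k(C × A)` holds for all `k` and all `A` as above, with at most `g`
  exceptional classes of elliptic curves;
* `X = C_1 × C_2` (take the sum of the motives of the two curves in the theorem): `GPC^1(C_1 × C_2)` is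
  a theorem of Bost, so `GPC^k(C_1 × C_2 × A)` holds for all `k`, with at most `g_1 + g_2` exceptional
  classes;
* `X` a surface for which `GPC^1` is known, for example a K3 surface (André, Bost, Charles):
  `GPC^k(X × A)` holds for all `k`;
* `X = B` an abelian variety such that `GPC` is known for all powers of `B`: then `GPC` holds for all
  powers of `B × A`, with at most `dim B` exceptional classes (take the motive `h^1(B)`).

If one of the elliptic curves is a factor of the Jacobian of the curve `C` then there are classes in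
`H^1(C) ⊗ H^1(A)`, which are not sums of products. So the exceptions cannot be avoided.

## The formal statement

Only the comparison isomorphism of `M₀ = H^*(X)` is used (or of `M₀ = ⊕ H^*(X_i)` for several varieties
`X_i`, or of any other object): an invertible complex matrix `C` of size `r`; the rows are the
coordinates of a rational basis `b_j` of the Betti cohomology with respect to a basis `ω_i` of the
algebraic de Rham cohomology over `ℚ̄`, that is `b_j = ∑_i C_ji ω_i`. The matrix `C` is block
triangular, with blocks of sizes `r_l` (for `X` smooth projective it is block diagonal and the `r_l`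
are the Betti numbers). The exceptional curves `X_1, ..., X_m`, `m ≤ ∑ l, ⌊r_l / 2⌋`, depend only on
`C`. The cohomology of `X^s`, and of products of the `X_i`, is a direct factor of `M₀^{⊗ s}`, with the
comparison isomorphism `C^{⊗ s}` (`tensorPower`). The cohomology `H^p(A)` is the space of the
alternating forms on the homology `H_1(A, ℚ)`. So the classes in question are the multilinear maps
`Φ : H_1(A, ℚ)^p → M₀^{⊗ s}` such that `(2 π i)^k Φ` has coefficients in `ℚ̄` with respect to the
de Rham bases (`IsGrothendieckClass`). It is not necessary to assume that `Φ` is alternating (if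
it is, one can antisymmetrize the conclusion). The theorem: `Φ = 0` if `p` is odd, and for `2 p`
variables `Φ` is a rational combination of the maps `w ↦ ψ(w) ξ`, where `ξ` is a class in `M₀^{⊗ s}` with
twist `k - p` (`IsGrothendieckVector`) and `ψ` is a product of `p` Hodge classes of degree two. The
latter are classes of divisors by the theorem of Lefschetz.

It is a known fact that isogenies between elliptic curves over `ℚ̄` are defined over `ℚ̄`; this is the
hypothesis `IsogeniesAreAlgebraic`.

For `r = 0` (no `X`) the theorem is contained in the file `MaximalRealMult`, and for elliptic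
curves without complex multiplication it is due to Kreutz, Shen and Vial. The corresponding statement
about the period torsors is in the file `ProductsWithEllipticCurves` of the problem `MP_470b79_ag`.

## Proof

1. For a class `Φ` with values in `M₀^{⊗ s}` let `𝔭` be the Lie algebra of the triples `(x, t, y)`, where
`x` is a block triangular matrix of size `r`, `t` a number and `y` an endomorphism of `H_1(A, ℂ)` such
that `y - t / 2` is in the Lie algebra `𝔤 ⊗ ℂ` of the Hodge group of `A`, and such that the triple kills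
`Φ`: `Φ(w) · x + k t Φ(w) = ∑_l Φ(w_1, ..., w_l y, ..., w_p)`, where `x` acts on `M₀^{⊗ s}` as a
derivation. If `D` is a derivation of `ℂ` over `ℚ̄`, then `(D(C) C⁻¹, D(2πi) / 2πi, D(P) P⁻¹)`, `P` the
period matrix of `A`, is such a triple, and also its rational components are (`PF_ptq`). The Lie algebra
`𝔭` is closed under replicas (`rho_rep`): this is a statement about sums of commuting operators
(`kills_sum`).

2. By the theorem on Lie algebras of triples (`Pw.NS_mem`, see the file `ProductsWithEllipticCurves` for
the proof of it) there are the exceptional curves `X_k`, such that `𝔭` contains `0 × 0 × 𝔤`, if `A` is a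
product of elliptic curves which are not isogenous to an `X_k`. So all coordinates of `Φ` are killed
by `𝔤`. If the number of variables is odd then `Φ = 0`, since the complex structure has the
eigenvalues `i` and `-i`.

3. For a product of elliptic curves, `𝔤` consists of all skew-symmetric endomorphisms of
`H_1(A, ℚ)` which commute with `End(A)` (`NA_of_skew`), so the forms killed by `𝔤` are combinations
of products of divisor classes, by the theorem of Y102 (`lefschetz`).

4. Write `Φ = ∑ ψ_c ξ_c` with linearly independent products `ψ_c` of divisor classes. As `𝔭` contains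
`(D(C) C⁻¹, t, D(P) P⁻¹)`, `t = D(2πi) / 2πi`, and `0 × 0 × 𝔤`, it contains `(D(C) C⁻¹, t, t / 2)`. So
`ξ_c · D(C) C⁻¹ + (k - p) t ξ_c = 0`, which means that the coefficients of `(2πi)^{k-p} ξ_c` with
respect to the de Rham basis are killed by all derivations, so they are algebraic (`GrV_coef`).
-/

open Module Matrix Pool.Agent.Y102 Pool.Agent.W516.DR Pool.Agent.H204R3.GP

noncomputable section

namespace Pool.Agent.Results.MP_bf54cf_ag.AnyVarietyTimesEllipticProducts

/-! ### Homomorphisms of abelian varieties -/

section Hom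

variable {g g' : ℕ}

/-- `f` is a homomorphism (up to isogeny) of the complex tori: it is given by a complex linear map of
the tangent spaces. -/
def IsComplexHomomorphism (A : AbVar g) (B : AbVar g') (f : A.H1 →ₗ[ℚ] B.H1) : Prop :=
  ∃ F : (Fin g → ℂ) →ₗ[ℂ] (Fin g' → ℂ), ∀ w, F (A.per w) = B.per (f w)

/-- `f` is a homomorphism (up to isogeny) from `A` to `B` over `ℚ̄`: it is given by a linear map of the
tangent spaces, and the pull backs of the algebraic differential forms are algebraic. -/
def IsHomomorphism (A : AbVar g) (B : AbVar g') (f : A.H1 →ₗ[ℚ] B.H1) : Prop :=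
  IsComplexHomomorphism A B f ∧
    ∃ e : Fin g' ⊕ Fin g' → Fin g ⊕ Fin g → QBar,
      ∀ i w, B.dR i (f w) = ∑ j, algebraMap QBar ℂ (e i j) * A.dR j w

/-- The complex tori `A` and `B` have no nonzero homomorphisms from `A` to `B`. For elliptic curves:
they are not isogenous. -/
def NoHomomorphisms (A : AbVar g) (B : AbVar g') : Prop :=
  ∀ f : A.H1 →ₗ[ℚ] B.H1, IsComplexHomomorphism A B f → f = 0

/-- A system of elliptic curves over `ℚ̄`. It is a well known fact that isogenies between elliptic
curves over `ℚ̄` are defined over `ℚ̄`. -/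
def IsogeniesAreAlgebraic {n : ℕ} (E : Fin n → AbVar 1) : Prop :=
  ∀ i j, NoHomomorphisms (E i) (E j) ∨ ∃ f, IsHomomorphism (E i) (E j) f ∧ f ≠ 0

/-- `A` is a direct factor, up to isogeny, of the product of the elliptic curves `E_k`: there are
homomorphisms `a_k : A → E_k` and `b_k : E_k → A` such that `∑ b_k a_k = 1`. -/
def IsFactorOfProduct {n : ℕ} (E : Fin n → AbVar 1) (A : AbVar g) : Prop :=
  ∃ (a : ∀ k, A.H1 →ₗ[ℚ] (E k).H1) (b : ∀ k, (E k).H1 →ₗ[ℚ] A.H1),
    (∀ k, IsHomomorphism A (E k) (a k)) ∧ (∀ k, IsHomomorphism (E k) A (b k)) ∧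
      ∑ k, b k ∘ₗ a k = LinearMap.id

end Hom

/-! ### Classes -/

/-- `2 π i` -/
def tpi : ℂ := 2 * Real.pi * Complex.I

/-- The comparison isomorphism of the tensor power `M₀^{⊗ s}`: the matrix `C^{⊗ s}`. -/
def tensorPower (s : ℕ) {r : ℕ} (C : Matrix (Fin r) (Fin r) ℂ) :
    Matrix (Fin s → Fin r) (Fin s → Fin r) ℂ := Matrix.of fun I J => ∏ u, C (I u) (J u)

section Classes

variable {R : Type} [Fintype R]

/-- The rational vector `ξ` (the class `∑_j ξ_j b_j`, where `b_j = ∑_i C_ji ω_i`) gives the class
`(2 π i)^k ξ` with coefficients in `ℚ̄` with respect to the de Rham basis `ω_i`. -/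
def IsGrothendieckVector (C : Matrix R R ℂ) (k : ℤ) (ξ : R → ℚ) : Prop :=
  ∀ i, ∃ a : QBar, tpi ^ k * ∑ j, ((ξ j : ℚ) : ℂ) * C j i = algebraMap QBar ℂ a

/-- The multilinear map `Φ` in the variables `w_l ∈ H_1(A, ℚ)`, `l ∈ κ`, with values in the rational
vectors, is a class in the tensor product of `M` (with the comparison isomorphism `C`) and the
`H^1(A)`, `l ∈ κ`, such that `(2 π i)^k Φ` has coefficients in `ℚ̄` with respect to the products of the
`ω_i` and of the elements of the basis `A.dR` of `H^1_dR(A / ℚ̄)`. -/
def IsGrothendieckClass (C : Matrix R R ℂ) {g : ℕ} (A : AbVar g) {κ : Type} [Fintype κ]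
    [DecidableEq κ] (k : ℤ) (Φ : MultilinearMap ℚ (fun _ : κ => A.H1) (R → ℚ)) : Prop :=
  ∃ e : (κ → Fin g ⊕ Fin g) → R → QBar, ∀ (w : κ → A.H1) (i : R),
    tpi ^ k * ∑ j, ((Φ w j : ℚ) : ℂ) * C j i =
      ∑ J, algebraMap QBar ℂ (e J i) * ∏ l, A.dR (J l) (w l)

/-- The product classes: the maps `w ↦ ψ(w) ξ`, where `(2 π i)^(k - p) ξ` is a class in `M` and `ψ` is
the product of `p` divisor classes. -/
def productClasses (C : Matrix R R ℂ) {g : ℕ} (A : AbVar g) (k : ℤ) (p : ℕ) :
    Set (MultilinearMap ℚ (fun _ : Fin p × Fin 2 => A.H1) (R → ℚ)) :=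
  {Ψ | ∃ (ξ : R → ℚ) (ψ : MultilinearMap ℚ (fun _ : Fin p × Fin 2 => A.H1) ℚ),
    IsGrothendieckVector C (k - p) ξ ∧
      IsProductOfHodgeBilinear (A.per : A.H1 →+ (Fin g → ℂ)) ψ ∧ ∀ w, Ψ w = ψ w • ξ}

end Classes

/-! ### The theorem -/

theorem isHom {g g' : ℕ} {A : AbVar g} {B : AbVar g'} {f : A.H1 →ₗ[ℚ] B.H1}
    (h : IsHomomorphism A B f) : Pool.Agent.H621.BC.IsHom A B f := h

/-- **Theorem.** Let `C` be an invertible complex matrix of size `r`, with zeros below the blocks
given by `lev`. There are `m ≤ ∑ l, ⌊r_l / 2⌋` elliptic curves `X_k` such that for all systems of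
elliptic curves `E_1, ..., E_n`, with or without complex multiplication, none of which is isogenous to
an `X_k`, all abelian varieties `A` which are factors of the product of the `E_i`, all `s` and `k`:

* there are no nonzero classes in `M₀^{⊗ s} ⊗ H^1(A)^{⊗ p} (k)` if `p` is odd;
* all classes in `M₀^{⊗ s} ⊗ H^1(A)^{⊗ 2p} (k)` are combinations of products of classes in
  `M₀^{⊗ s} (k - p)` and of products of `p` divisor classes of `A`. -/
theorem result (r K : ℕ) (C : Matrix (Fin r) (Fin r) ℂ) (hC : IsUnit C.det)
    (lev : Fin r → Fin K) (hlev : ∀ i j, lev j < lev i → C i j = 0) :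
    ∃ (m : ℕ) (X : Fin m → AbVar 1), m ≤ ∑ l : Fin K, Fintype.card {i // lev i = l} / 2 ∧
      ∀ (n : ℕ) (E : Fin n → AbVar 1), IsogeniesAreAlgebraic E →
        (∀ k i, NoHomomorphisms (X k) (E i)) →
          ∀ (g : ℕ) (A : AbVar g), IsFactorOfProduct E A → ∀ (s : ℕ) (k : ℤ) (p : ℕ),
            (∀ Φ : MultilinearMap ℚ (fun _ : Fin p => A.H1) ((Fin s → Fin r) → ℚ), Odd p →
              IsGrothendieckClass (tensorPower s C) A k Φ → Φ = 0) ∧
            (∀ Φ : MultilinearMap ℚ (fun _ : Fin p × Fin 2 => A.H1) ((Fin s → Fin r) → ℚ),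
              IsGrothendieckClass (tensorPower s C) A k Φ →
                Φ ∈ Submodule.span ℚ (productClasses (tensorPower s C) A k p)) := by
  classical
  have h1 : C * C⁻¹ = 1 := Matrix.mul_nonsing_inv _ hC
  have hB : Pool.Agent.H621.BC.BT lev C := hlev
  have hB' : Pool.Agent.H621.BC.BT lev C⁻¹ := by
    have hBT : C.BlockTriangular lev := fun i j hij => hlev i j hij
    let : Invertible C := Matrix.invertibleOfIsUnitDet C hC
    have h2 := Matrix.blockTriangular_inv_of_blockTriangular hBT
    exact fun i j hij => h2 hij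
  obtain ⟨m, X, hm, hX⟩ := Pool.Agent.H621.CY.exists_max hB hB'
  refine ⟨m, X, hm, fun n E halg hE g A hA s k p => ?_⟩
  obtain ⟨a, b, ha, hb, hs⟩ := hA
  obtain ⟨W, ho⟩ := Pool.Agent.H621.CY.exists_PwO E
  have hF := Pool.Agent.H621.CY.fac_of W (fun k => isHom (ha k)) (fun k => isHom (hb k)) hs
  have halg' : ∀ i j, ¬ Pool.Agent.H621.CY.NoHom (E i) (E j) →
      ∃ φ : (E i).H1 →ₗ[ℚ] (E j).H1, Pool.Agent.H621.BC.IsHom (E i) (E j) φ ∧ φ ≠ 0 := by
    intro i j hij
    rcases halg i j with h2 | ⟨f, h2, h3⟩
    · exact absurd h2 hij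
    · exact ⟨f, isHom h2, h3⟩
  have hgood : ∀ i, ¬ Pool.Agent.H621.CY.Bad C C⁻¹ lev (E i) := fun i => hX (E i) fun k => hE k i
  constructor
  · intro Φ hp hΦ
    have hΦ' : Pool.Agent.H621.CY.GrC (Pool.Agent.H621.CY.kp (Fin s) C) A k Φ := hΦ
    have h2 := W.cyc_odd halg' h1 hB hB' hgood (by rw [Fintype.card_fin]; exact hp)
      (hΦ'.comp hF.hp)
    refine MultilinearMap.ext fun w => ?_
    have h3 := congrArg (fun Ψ : MultilinearMap ℚ (fun _ : Fin p => W.B.H1)
      ((Fin s → Fin r) → ℚ) => Ψ fun l => (∑ k, W.f k ∘ₗ a k) (w l)) h2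
    change Φ (fun l => (∑ k, b k ∘ₗ W.p k) ((∑ k, W.f k ∘ₗ a k) (w l))) = 0 at h3
    simp only [hF.pf] at h3
    exact h3
  · intro Φ hΦ
    have hΦ' : Pool.Agent.H621.CY.GrC (Pool.Agent.H621.CY.kp (Fin s) C) A k Φ := hΦ
    obtain ⟨N, ψ, ξ, h2, h3, h4⟩ := W.cyc halg' ho h1 hB hB' hgood (hΦ'.comp hF.hp)
    have h5 : Φ = ∑ c, ((ψ c).compLinearMap fun _ => (∑ k, W.f k ∘ₗ a k)).smulRight (ξ c) := by
      refine MultilinearMap.ext fun w => ?_
      funext i
      have h6 := h4 (fun l => (∑ k, W.f k ∘ₗ a k) (w l)) i
      change Φ (fun l => (∑ k, b k ∘ₗ W.p k) ((∑ k, W.f k ∘ₗ a k) (w l))) i = _ at h6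
      simp only [hF.pf] at h6
      rw [h6, _root_.sum_apply, Finset.sum_apply]
      rfl
    rw [h5]
    refine Submodule.sum_mem _ fun c _ => Submodule.subset_span
      ⟨ξ c, (ψ c).compLinearMap fun _ => (∑ k, W.f k ∘ₗ a k), h3 c, ?_, fun w => rfl⟩
    exact Pool.Agent.H621.CY.prod_comp hF.hf 
      (Pool.Agent.Y102.AbVar.LefProd_hodge W.B.endAlg.hodge (h2 c))

end Pool.Agent.Results.MP_bf54cf_ag.AnyVarietyTimesEllipticProducts
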