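import Pool.Agent.Helper433_ES.NorF5

/-!
Grothendieck classes on elliptic surfaces over the projective line.

`K` is a number field, `σ i` embeddings of `K` in `ℂ`, among them at least one of each pair of
complex conjugate embeddings, and `y ^ 2 = x ^ 3 + a x + b` is a minimal Weierstrass equation over
the `s`-line, `a` and `b` polynomials over `K` of degrees at most `4 χ` and `6 χ`. A class is
a rational section `(P₁ / Q, P₂ / Q)` over `K` of the relative de Rham bundle which is
a Grothendieck class (`GClass`) at every `σ i`: it has local meromorphic primitives that agree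
modulo periods.

If the gains of the additive fibres outweigh `24` times half of `χ`, every such class becomes,
after translation by one rational function over `K`, zero or the class of a section `(x, y)` at
every `σ i`. Part of the poles of the primitives may be imposed at special fibres (`R`, `T`, `mi`,
`ωi`), where they are cheaper.
-/

namespace Pool.Agent.Results.MP_bf54cf_ag.GPCPlaces

open Filter Topology Finset Pool.Agent.Helper433.ES

theorem result {K : Type*} [Field K] [NumberField K] {ι : Type*} [Finite ι] [Nonempty ι]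
    {σ : ι → K →+* ℂ}
    (hσ : ∀ τ : K →+* ℂ, ∃ i, τ = σ i ∨ τ = (starRingEnd ℂ).comp (σ i))
    {a b Q P₁ P₂ R T : Polynomial K} {χ mi ωi : ℕ} (hab : disc a b ≠ 0)
    (hmin : ∀ π : Polynomial K, Irreducible π → ¬ (π ^ 4 ∣ a ∧ π ^ 6 ∣ b))
    (ha : a.natDegree ≤ 4 * χ) (hb : b.natDegree ≤ 6 * χ)
    (hmini : ¬ (a.natDegree + 4 ≤ 4 * χ ∧ b.natDegree + 6 ≤ 6 * χ))
    (hR : R.Monic) (hT : T ∣ R ^ 12) (hTa : T ∣ a ^ 3) (hTb : T ∣ b ^ 2)
    (hωi : 3 * a.natDegree + ωi ≤ 12 * χ ∧ 2 * b.natDegree + ωi ≤ 12 * χ)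
    {I : Finset (Polynomial K)} {g : Polynomial K → ℕ}
    (hI : ∀ π ∈ I, π.Monic ∧ Irreducible π ∧ ¬ π ∣ R ∧ Gain a b π (g π))
    (hcrit : 2 * (12 * R.natDegree - T.natDegree) + 2 * (12 * mi - ωi) +
      24 * ((χ - (R.natDegree + mi)) / 2) < ∑ π ∈ I, π.natDegree * g π)
    (hQ : Q ≠ 0)
    (N : ∀ i, GClass (a.map (σ i)) (b.map (σ i)) (Q.map (σ i)) (P₁.map (σ i)) (P₂.map (σ i))) :
    ∃ U H : Polynomial K, H ≠ 0 ∧ ∀ i,
    ((∀ p, ∀ᶠ s in 𝓝[≠] p, IsPeriod ((a.map (σ i)).eval s) ((b.map (σ i)).eval s)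
      ((N i).z p s + (U.map (σ i)).eval s / (H.map (σ i)).eval s)) ∨
    ∃ x y : RatFunc ℂ,
      y ^ 2 = x ^ 3 + algebraMap (Polynomial ℂ) (RatFunc ℂ) (a.map (σ i)) * x +
        algebraMap (Polynomial ℂ) (RatFunc ℂ) (b.map (σ i)) ∧
      ∀ p, ∀ᶠ s in 𝓝[≠] p, ∀ L : PeriodPair,
        L.g₂ = -4 * (a.map (σ i)).eval s → L.g₃ = -4 * (b.map (σ i)).eval s →
        (N i).z p s + (U.map (σ i)).eval s / (H.map (σ i)).eval s ∉ L.lattice ∧
          L.weierstrassP ((N i).z p s + (U.map (σ i)).eval s / (H.map (σ i)).eval s) =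
            RatFunc.eval (RingHom.id ℂ) s x ∧
          L.derivWeierstrassP ((N i).z p s + (U.map (σ i)).eval s / (H.map (σ i)).eval s) =
            2 * RatFunc.eval (RingHom.id ℂ) s y) :=
  main3 hσ hab hmin ha hb hmini hR hT hTa hTb hωi hI hcrit hQ N

end Pool.Agent.Results.MP_bf54cf_ag.GPCPlaces
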